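import Pool.Agent.T6helper6.AF.Forth

/-!
# The motivic t-structure over an arbitrary field in terms of algebraic cycles

`C` is an idempotent complete rigid `ℚ`-linear tensor triangulated category with realisations `R l`
with coefficients in fields of characteristic zero, and `P` a class of objects. The case in point: `k`
is an arbitrary field, `C = DM_c(k)`, the `R l` are the `l`-adic realisations, and `P` are the Chow
motives (the direct summands of the `M(X)(n)[2n]`, `X` smooth projective, `n ∈ ℤ`). The hypotheses,
collected in `IsChow`, are known theorems in this case.
* The endomorphism ring of the unit is `ℚ`. Chow motives form a rigid tensor category which generates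
  `C` (de Jong), and there are no morphisms of positive degree between Chow motives (Voevodsky).
* For one prime `l₀`: the hard Lefschetz theorem, with `T = 𝟙(1)[2]` (Deligne), and weights: a
  morphism `M ⟶ N⟦n⟧` of Chow motives maps `H^i(M)`, of weight `i`, to `H^(i+n)(N)`, of weight
  `i + n`, so it is zero on cohomology if `n ≠ 0` (Deligne).

Theorem. There is a t-structure which is motivic for all the realisations if and only if
* (Chow-Künneth) every Chow motive is a direct sum of Chow motives each of which has cohomology in one
  degree only (Murre's conjecture A, in the form of a decomposition in `C`);
* (Injectivity) for every Chow motive `M` with cohomology in degree `w` only and `n ≤ min(0, w)` the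
  realisation is injective on the morphisms `𝟙 ⟶ M⟦n⟧`: Murre's conjectures B and D for `n = 0`, the
  vanishing conjecture of Beilinson and Soulé for `n < 0`;
* (Grothendieck's standard conjecture D) homological and numerical equivalence agree.

In particular the question for a field `k` is a question on the higher Chow groups of
smooth projective varieties over `k`, and a positive answer implies the standard conjecture D
over `k`, in every characteristic.

Steps of the proof. (⇒) The pieces of the identity of an object with the hard Lefschetz theorem
split off from the outside to the inside (Deligne's decomposition), and split objects are closed
under direct summands. This gives the decomposition. T-exact realisations are faithful on the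
heart, which gives injectivity, and a nonzero morphism `𝟙 ⟶ M` in the heart, `M` a Chow motive, is
detected by some `M ⟶ 𝟙`, since otherwise the powers of the class of the extension
`𝟙 ⟶ M ⟶ Z` would all be nonzero, whereas high exterior powers of `Z` vanish.
(⇐) Let `S` be the class of the Chow motives with cohomology in one degree, shifted to degree zero.
By injectivity there are no morphisms of negative degree between them, and by the trace form and
the standard conjecture D all morphisms between them are von Neumann regular. The iterated
extensions of objects of `S` in nondecreasing degrees form a triangulated subcategory with
truncations; the direct summands are dealt with by the realisations.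
-/

set_option autoImplicit false

open CategoryTheory Limits MonoidalCategory Pretriangulated Triangulated

universe v u w

namespace Pool.Agent.Results.MP_6d0ce9_ag.AnyField

open Pool.Agent.Y116.MT Pool.Agent.T6helper6.AF

/-- Over an arbitrary field, the motivic t-structure exists if and only if there are Chow-Künneth
decompositions, the conjectures of Murre and Beilinson-Soulé on the injectivity of the realisation
hold, and homological and numerical equivalence agree. -/
theorem result {C : Type u} [Category.{v} C] [Preadditive C] [HasZeroObject C] [HasShift C ℤ]
    [∀ n : ℤ, (shiftFunctor C n).Additive] [Pretriangulated C] [IsTriangulated C]
    [MonoidalCategory C] [SymmetricCategory C] [TensorTriangulated C] [MonoidalPreadditive C]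
    [RightRigidCategory C] [IsIdempotentComplete C] [Linear ℚ C]
    {Λ : Type*} {E : Λ → Type w} [∀ l, Field (E l)] [∀ l, CharZero (E l)]
    (R : ∀ l, Realisation C (E l)) (l₀ : Λ) (P : C → Prop) (T : C) (h : IsChow (R l₀) P T) :
    (∃ t : TStructure C, IsMotivic t R) ↔
      ChowKunneth R P ∧ Injectivity R l₀ P ∧ HomEqNum (R l₀) P := by
  constructor
  · rintro ⟨t, hm⟩
    exact ⟨chowKunneth h hm, injectivity h hm, homEqNum h hm⟩
  · rintro ⟨h1, h2, h3⟩
    exact exists_t h h1 h2 h3

end Pool.Agent.Results.MP_6d0ce9_ag.AnyField
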