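import Pool.Agent.K6.H99.MS.Main
import Pool.Agent.T6helper6.MT.Sub

/-!
# The motivic t-structure for elliptic motives over fields of transcendence degree one over a finite
field

Let `K` be a field of characteristic `p` and of transcendence degree at most one over the prime field.
The theorem gives a t-structure as in the problem on the full triangulated subcategory of `DM_c(K)`
generated by the motives of the products of elliptic curves which are defined over the algebraic
closure `k` of the prime field in `K` (and their Tate twists). This tensor category contains the mixed
Tate motives over `K`, the Kummer motives, and for instance the motives of all varieties over `K` which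
have a stratification by constant products of elliptic curves, affine spaces and tori; for infinite
`K` it is not semisimple and it contains mixed motives of all weights. No conjecture is assumed.
The theorem also applies to function fields of some surfaces.

Setting. `K` is a filtered union of finitely generated fields `K i`, regular extensions of the finite
fields `k i` with `q i` elements.

* `D i = DM_c(k i)`, and `φ i` is the Frobenius endomorphism, which is natural and compatible with
  tensor products and shifts.
* `𝒮 i` consists of the direct summands of the finite sums of the objects `h^j(A)⟦j⟧(s)`, `j, s ∈ ℤ`, where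
  `A` is a product of elliptic curves over a finite extension of `k i`, regarded as a variety over
  `k i`. The class is closed under tensor products and direct summands. For such products
  rational and homological equivalence coincide, and Parshin's conjecture holds (Spiess, Kahn);
  so there are no morphisms of negative degree, and the category of motives is semisimple (Jannsen).
* `C i` is the full triangulated subcategory of `DM_c(K i)` generated by the objects `Φ P`, the
  pullbacks to `K i` of the objects `P` of `𝒮 i`.
* `Y i` is a smooth variety over `k i` with function field `K i`, the index `U` runs through its open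
  subsets, and `G U = RΓ(U) = p_* 𝟙`, where `p : U ⟶ Spec k i` is the projection. Continuity,
  adjunction and the projection formula give `Hom(Φ P, Φ P'⟦n⟧) = colim Hom(P, (P' ⊗ RΓ(U))⟦n⟧)`.
  The maps `ρ` are the canonical ones.
* If `Y i` is an open subset of a smooth projective curve `Z`, then `RΓ(U)` is an extension by the unit
  of an object built from `h^1(Z)`, `h^2(Z) = L⟦-2⟧` and `(M(x) ⊗ L)⟦-1⟧` for the missing closed points `x`,
  `L = 𝟙(-1)`. By Poincare's theorem `h^1(Z)⟦1⟧` is the sum of an object of `𝒮 i` and of `h^1(B)⟦1⟧`
  for an abelian variety `B` such that no elliptic curve over an algebraic closure of `k i` is a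
  factor of `B`. The endomorphism ring of `h^1(B)` is `End(B) ⊗ ℚ`, so that the characteristic
  polynomials of Frobenius annihilate the Frobenius endomorphism (Weil), and `h^1(B)⟦1⟧` is
  `NonElliptic` by the theorems of Honda and Tate.
* If `Y i` is an open subset of a smooth projective surface `Z`, the missing closed subsets are
  stratified by points and by open subsets of curves; so `RΓ(U)` has the required form for all
  `U` if `h^2(Z)` is a direct summand of a sum of objects `(P ⊗ h^1(B)⟦1⟧)⟦-2⟧`, `P⟦-2⟧`. Examples are the surfaces
  dominated by the product of an elliptic curve and a curve, and the ruled surfaces over any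
  curve, like the projective plane.

Steps of the proof. The main point is that there are no morphisms in `D i` between an object `X` of
`𝒮 i` and `(P ⊗ W)⟦j⟧`, where `P` is in `𝒮 i` and `W` is not elliptic. By naturality two endomorphisms
of the group of these morphisms coincide: the one given by Frobenius on `X`, and the product of those
given by the Frobenius endomorphisms on `P` and on `W`. If the group is not zero this gives a
multiplicative relation: the product of Frobenius eigenvalues of elliptic curves and of the
`q`-Weil number `ω` of an abelian variety is a power of `q`. The absolute values in all the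
embeddings into an algebraic closure of the field of `p`-adic numbers show that there is an even
number of factors, and a computation of second moments over the Galois group shows that two of them
have product `q` up to a root of unity unless there is only one elliptic factor; so `ω` comes from
an elliptic curve up to a root of unity, a contradiction. It follows that the category of the `Φ P`
is a full semisimple subcategory of `C i` equivalent to `𝒮 i`, and that it has no morphisms of negative
degree. It generates `C i`, and its objects have cohomology in degree zero only. This implies the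
existence of the t-structure. The t-structures on the categories `C i` induce one on their union.
-/

set_option autoImplicit false

open CategoryTheory Limits MonoidalCategory Pretriangulated Triangulated

universe v u v' u' w

namespace Pool.Agent.Results.MP_6d0ce9_ag.ConstantEllipticMotives

open Pool.Agent.Y116.MT Pool.Agent.T6helper6.MT Pool.Agent.K6.H99.MS

/-- The motivic t-structure for motives generated by constant elliptic curves, over fields of
transcendence degree one over a finite field. -/
theorem result {ι : Type}
    -- the motives over the finite fields `k i`
    {D : ι → Type u'} [∀ i, Category.{v'} (D i)] [∀ i, Preadditive (D i)]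
    [∀ i, HasZeroObject (D i)] [∀ i, HasShift (D i) ℤ]
    [∀ i, ∀ n : ℤ, (shiftFunctor (D i) n).Additive] [∀ i, Pretriangulated (D i)]
    [∀ i, MonoidalCategory (D i)] [∀ i, SymmetricCategory (D i)] [∀ i, TensorTriangulated (D i)]
    [∀ i, MonoidalPreadditive (D i)] [∀ i, Linear ℚ (D i)] [∀ i, IsIdempotentComplete (D i)]
    (φ : ∀ i, ∀ X : D i, X ⟶ X) (q : ι → ℕ) (hq : ∀ i, IsPrimePow (q i))
    (𝒮 : ∀ i, ObjectProperty (D i))
    -- the constant elliptic motives over the fields `K i`
    {C : ι → Type u} [∀ i, Category.{v} (C i)] [∀ i, Preadditive (C i)]
    [∀ i, HasZeroObject (C i)] [∀ i, HasShift (C i) ℤ]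
    [∀ i, ∀ n : ℤ, (shiftFunctor (C i) n).Additive] [∀ i, Pretriangulated (C i)]
    [∀ i, IsTriangulated (C i)] [∀ i, MonoidalCategory (C i)] [∀ i, SymmetricCategory (C i)]
    [∀ i, TensorTriangulated (C i)] [∀ i, MonoidalPreadditive (C i)]
    [∀ i, RightRigidCategory (C i)] [∀ i, IsIdempotentComplete (C i)]
    (Φ : ∀ i, (𝒮 i).FullSubcategory ⥤ C i) [∀ i, (Φ i).Additive]
    (J : ι → Type) (G : ∀ i, J i → D i) (η : ∀ i, ∀ U : J i, 𝟙_ (D i) ⟶ G i U)
    (ρ : ∀ i, ∀ (U : J i) (P P' : (𝒮 i).FullSubcategory) (n : ℤ),
      (P.obj ⟶ (P'.obj ⊗ G i U)⟦n⟧) → ((Φ i).obj P ⟶ ((Φ i).obj P')⟦n⟧))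
    {Λ : Type} {E : Λ → Type w} [∀ l, Field (E l)] [∀ l, CharZero (E l)]
    (R : ∀ i l, Realisation (C i) (E l)) (l₀ : Λ)
    (h : ∀ i, IsConstantCategory (φ i) (q i) (Φ i) (G i) (η i) (ρ i) (R i) l₀)
    -- the motives over the union `K` of the fields `K i`
    {T : Type u} [Category.{v} T] [Preadditive T] [HasZeroObject T] [HasShift T ℤ]
    [∀ n : ℤ, (shiftFunctor T n).Additive] [Pretriangulated T] [IsTriangulated T]
    [MonoidalCategory T] [SymmetricCategory T] [TensorTriangulated T] [MonoidalPreadditive T]
    (R' : ∀ l, Realisation T (E l)) (F : ∀ i, C i ⥤ T) [∀ i, (F i).CommShift ℤ]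
    [∀ i, (F i).IsTriangulated]
    (hid : ∀ i, ∀ e : 𝟙_ (C i) ⟶ 𝟙_ (C i), e ≫ e = e → e = 0 ∨ e = 𝟙 _)
    (hF : ∀ i l X, IsZero ((R i l).H.obj X) ↔ IsZero ((R' l).H.obj ((F i).obj X)))
    (hcolim : ∀ (A B : T) (f : A ⟶ B), ∃ (i : ι) (A₀ B₀ : C i) (f₀ : A₀ ⟶ B₀)
      (a : A ≅ (F i).obj A₀) (b : B ≅ (F i).obj B₀), f ≫ b.hom = a.hom ≫ (F i).map f₀) :
    (∀ i, ∃ t : TStructure (C i), IsMotivic t (R i)) ∧ ∃ t : TStructure T, IsMotivic t R' := by
  have : Nonempty Λ := ⟨l₀⟩
  have h1 : ∀ i, ∃ t : TStructure (C i), IsMotivic t (R i) := fun i => exists_constant (hq i) (h i)
  exact ⟨h1, motivic_ascent hid hF hcolim h1⟩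

end Pool.Agent.Results.MP_6d0ce9_ag.ConstantEllipticMotives
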