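import Pool.Agent.T6helper6.FF.Forth

/-!
# Finite fields: the motivic t-structure exists if and only if Parshin's conjecture holds and
rational and numerical equivalence agree

`C` is an idempotent complete rigid `ℚ`-linear tensor triangulated category with realisations `R l`
with coefficients in fields of characteristic zero, `P` is a class of objects and `φ` a family of
endomorphisms. The case in point: `C = DM_c(F)` for a finite field `F` with `q` elements, the
realisations are the `l`-adic ones, `P` are the Chow motives (the direct summands of the
`M(X)(n)[2n]`, `X` smooth projective, `n ∈ ℤ`), and `φ` is the Frobenius endomorphism. The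
hypotheses, collected in `IsFrobenius`, are known theorems in this case.
* The endomorphism ring of the unit is `ℚ`. Chow motives form a rigid tensor category which generates
  `C` (de Jong), and there are no morphisms of positive degree between Chow motives (Voevodsky).
* The Frobenius endomorphism is natural and acts on the `i`-th cohomology of a Chow motive `M` with a
  characteristic polynomial `p M i` which has rational coefficients and does not depend on `l`
  (Katz-Messing). Its zeros have absolute value `q ^ (i / 2)` (Deligne), so that `p M i` and `p N j`
  are coprime for `i ≠ j`.

Theorem. There is a t-structure which is motivic for all the realisations if and only if every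
Chow motive `M` satisfies
* Parshin's conjecture: every morphism `𝟙 ⟶ M⟦n⟧` with `n < 0` is zero (the rational higher Chow groups,
  equivalently the rational higher `K`-groups, of smooth projective varieties vanish), and
* Beilinson's conjecture that rational and numerical equivalence agree: for every morphism
  `f : 𝟙 ⟶ M`, `f ≠ 0`, there is `g : M ⟶ 𝟙` with `f ≫ g ≠ 0`.

The Tate conjecture is not needed for the existence. Q1 for finite fields is thus equivalent
to these two conjectures on algebraic cycles. The theorem can also be applied to the triangulated
subcategories generated by smaller classes of Chow motives.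

Steps of the proof. (⇐) By the Künneth formula and the second condition, the realisations are
faithful on Chow motives. For a Chow motive `L` whose realisation lives in degree `n`, the trace on
`L⟦n⟧` is a nondegenerate form with rational values on a finite dimensional `ℚ`-algebra, so that
the endomorphism ring of `L` is semisimple. A polynomial in the Frobenius endomorphism
decomposes any Chow motive into such motives. So Chow motives form a semisimple category without
morphisms of nonzero degree, every object of `C` is a direct sum of shifts of Chow motives, and the
Künneth components give the t-structure.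
(⇒) Let `M` be a Chow motive and `A`, `K`, `B` the parts of `M` in degrees `≤ -1`, `0`, `≥ 1` for the
t-structure. A t-exact realisation is faithful on the heart, so that the Frobenius endomorphisms of
`A`, `K` and `B` are annihilated by polynomials which are coprime. So there are no extensions,
`M = A ⊕ K ⊕ B`, and `K` is a Chow motive; there are no morphisms from the unit to shifts of
`A` and `B`, and none to `K⟦n⟧` for `n < 0`. A nonzero `𝟙 ⟶ K` is detected by some `K ⟶ 𝟙` since otherwise
the powers of the class of an extension in `Ext^1(Z, 𝟙)`, `Z = K / 𝟙`, would all be nonzero, whereas
high exterior powers of `Z` vanish.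
-/

set_option autoImplicit false

open CategoryTheory Limits MonoidalCategory Pretriangulated Triangulated
open scoped Polynomial

universe v u w

namespace Pool.Agent.Results.MP_6d0ce9_ag.FiniteFields

open Pool.Agent.Y116.MT Pool.Agent.T6helper6.FF

/-- Over a finite field, the motivic t-structure exists if and only if Parshin's conjecture holds and
rational and numerical equivalence agree. -/
theorem result {C : Type u} [Category.{v} C] [Preadditive C] [HasZeroObject C] [HasShift C ℤ]
    [∀ n : ℤ, (shiftFunctor C n).Additive] [Pretriangulated C] [IsTriangulated C]
    [MonoidalCategory C] [SymmetricCategory C] [TensorTriangulated C] [MonoidalPreadditive C]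
    [RightRigidCategory C] [IsIdempotentComplete C] [Linear ℚ C]
    {Λ : Type*} [Nonempty Λ] {E : Λ → Type w} [∀ l, Field (E l)] [∀ l, CharZero (E l)]
    (R : ∀ l, Realisation C (E l)) (P : C → Prop) (φ : ∀ X : C, X ⟶ X) (p : C → ℤ → ℚ[X])
    (h : IsFrobenius R P φ p) :
    (∃ t : TStructure C, IsMotivic t R) ↔
      ∀ M : C, P M → (∀ n : ℤ, n < 0 → ∀ f : 𝟙_ C ⟶ M⟦n⟧, f = 0) ∧
        ∀ f : 𝟙_ C ⟶ M, f ≠ 0 → ∃ g : M ⟶ 𝟙_ C, f ≫ g ≠ 0 := by
  constructor
  · rintro ⟨t, hm⟩ M hM
    obtain ⟨l⟩ := ‹Nonempty Λ›
    have ht : TensorCompat t := ⟨hm.tensor_le, hm.tensor_ge⟩
    have hu : Hrt t (𝟙_ C) := unit_hrt ht hm.nondeg_le hm.nondeg_ge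
    have he : TExact t (R l) := ⟨hm.exact_le l, hm.exact_ge l⟩
    have hc : Pool.Agent.V1178.MT.Conservative (R l) := fun X hX =>
      conservative ht he hu (idem_unit h l) hm.nondeg_le hm.nondeg_ge hX
    exact ⟨fun n hn f => parshin h ht he hu hc hM n hn f,
      fun f hf => rat_num h ht he hu hc hM f hf⟩
  · intro hcon
    exact exists_t h (fun M hM => (hcon M hM).1) (fun M hM => (hcon M hM).2)

end Pool.Agent.Results.MP_6d0ce9_ag.FiniteFields
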