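import Pool.Agent.K6.H98.PF.Mod

/-!
# The motivic t-structure: the question depends only on the prime field

`k` is a perfect field, for example a prime field, and `K` is any extension field of `k`;
`D = DM_c(k)` and `C = DM_c(K)` are idempotent complete rigid `ℚ`-linear tensor triangulated categories
with realisations `RD l` and `RC l` with coefficients in fields of characteristic zero (for all primes
`l` different from the characteristic). If `K` is not perfect we replace it by its perfection, which
does not change `DM_c(K)`.

Theorem. There is a motivic t-structure on `DM_c(K)` (non-degenerate, compatible with the tensor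
product, all the realisations t-exact) if and only if there is one on `DM_c(k)`.

So Q1 for a field `K` is equivalent to Q1 for its prime field; Q1 holds for all fields if and only if
it holds for `ℚ` and for all `𝔽_p`; and if it holds for one field, it holds for all fields of the same
characteristic. For `𝔽_p` it is equivalent to Parshin's conjecture and the equality of rational and
numerical equivalence, see the hand-in `FiniteFields`.

The hypotheses are known theorems in this case.
* `IsChow`, for `k` and for `K`, as in the hand-in `AnyField`: `End(𝟙) = ℚ`; Chow motives (the direct
  summands of the `M(X)(n)[2n]`, `X` smooth projective) form a rigid tensor category which generates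
  (de Jong), without morphisms of positive degree (Voevodsky); the hard Lefschetz theorem and
  weights for one prime `l₀` (Deligne).
* `IsBaseChange`: the base change functor `Φ` from `DM_c(k)` to `DM_c(K)`. It preserves Chow motives and
  cohomology and is faithful, by spreading out, specialisation to a closed point and transfer; in the
  same way one gets elements and Künneth projectors over `k` from those over `K`.
* `Model`, `Family`, `IsModel`: a smooth connected variety `a : U ⟶ Spec k`, with an embedding of its function
  field in `K`, and a closed point `u` of `U` with residue field `k'`, `r : Spec k' ⟶ Spec k`. Here `B` is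
  the thick subcategory of `DM_c(U)` generated by the class `P` of the smooth projective motives over
  `U`, `S(X, Y) = a_* Hom(X, Y)`, `fibre(X) = r_* X_u`, and `generic` is the pullback to `K`. The
  realisations commute with these functors (here it is essential that `l` is different from the
  characteristic). `Comparison` is smooth base change, `Negative`, `Injectivity` and `Nilpotence` are
  elementary properties of lisse `l`-adic complexes on `U`. `Semisimplicity` and `Projectors` follow
  from theorems of Deligne: for `f : X ⟶ U` smooth and projective, `Rf_* ℚ_l` is the
  sum of its shifted cohomology sheaves, these are semisimple over the algebraic closure of `k`, and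
  the part of weight zero of the cohomology of `a_* Hom(M, M')`, for smooth projective motives `M`, `M'`
  over `U`, is the image of the cohomology of a Chow motive `N ⟶ a_* Hom(M, M')` over `k` (given by a
  smooth compactification, or an alteration).
* `SpreadOut`: `DM_c(K)` is the union of the `DM_c(U)`; its objects and morphisms come from models.

Steps of the proof. By the theorem of the hand-in `AnyField` a motivic t-structure over `K` exists if
and only if Chow motives over `K` have Chow-Künneth decompositions, the realisation is injective on
the morphisms `𝟙 ⟶ M⟦n⟧` for `n ≤ min(0, w)` and `M` of degree `w`, and homological and numerical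
equivalence agree. (From `k` to `K`) The morphisms `𝟙 ⟶ M⟦n⟧` over `U` are morphisms from `𝟙` to
`a_* M⟦n⟧` over `k`, where `a_* M` has no cohomology in degrees below `w`; so they are detected by the
realisation. A Künneth projector of the fibre `r_* M_u`, which exists over `k`, is `l`-adically a
global section of `Hom(M, M)` of weight zero; Chow motives over `k` with cohomology in degree zero
form a semisimple category, so it lifts to a morphism over `U` with the same cohomology. An
endomorphism of `M` which is zero on cohomology induces a nilpotent endomorphism of `a_* Hom(M, M)` by
the t-structure over `k`, hence is nilpotent, so that projectors can be lifted. Finally a section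
`z : 𝟙 ⟶ M` with nonzero cohomology is paired nontrivially with a morphism `M ⟶ ℚ_l` of weight zero,
hence, by semisimplicity over `k`, with a morphism `M ⟶ 𝟙` over `U`. (From `K` to `k`) By base change
and specialisation.
-/

set_option autoImplicit false

open CategoryTheory Limits MonoidalCategory Pretriangulated Triangulated

universe v u u' w

namespace Pool.Agent.Results.MP_6d0ce9_ag.PrimeFields

open Pool.Agent.Y116.MT Pool.Agent.T6helper6.AF Pool.Agent.K6.H98.PF

/-- The motivic t-structure exists over `K` if and only if it exists over `k`. -/
theorem result {D : Type u} [Category.{v} D] [Preadditive D] [HasZeroObject D] [HasShift D ℤ]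
    [∀ n : ℤ, (shiftFunctor D n).Additive] [Pretriangulated D] [IsTriangulated D]
    [MonoidalCategory D] [SymmetricCategory D] [TensorTriangulated D] [MonoidalPreadditive D]
    [RightRigidCategory D] [IsIdempotentComplete D] [Linear ℚ D]
    {C : Type u} [Category.{v} C] [Preadditive C] [HasZeroObject C] [HasShift C ℤ]
    [∀ n : ℤ, (shiftFunctor C n).Additive] [Pretriangulated C] [IsTriangulated C]
    [MonoidalCategory C] [SymmetricCategory C] [TensorTriangulated C] [MonoidalPreadditive C]
    [RightRigidCategory C] [IsIdempotentComplete C] [Linear ℚ C]
    {Λ : Type*} {E : Λ → Type w} [∀ l, Field (E l)] [∀ l, CharZero (E l)]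
    (RD : ∀ l, Realisation D (E l)) (RC : ∀ l, Realisation C (E l)) (l₀ : Λ)
    (PD : D → Prop) (TD : D) (hD : IsChow (RD l₀) PD TD)
    (PC : C → Prop) (TC : C) (hC : IsChow (RC l₀) PC TC)
    (Φ : D ⥤ C) (e₀ : Φ.obj (𝟙_ D) ≅ 𝟙_ C) (hΦ : IsBaseChange Φ e₀ RD RC PD PC)
    {ι : Type*} (m : ι → Model.{v, v, v, u, u, u'} D C)
    (hm : ∀ i, IsModel (m i).family RD RC l₀ PD) (hs : SpreadOut m PC) :
    (∃ t : TStructure C, IsMotivic t RC) ↔ ∃ t : TStructure D, IsMotivic t RD := by
  constructor
  · rintro ⟨t, ht⟩
    exact exists_t_down hD hC hΦ ht
  · rintro ⟨t, ht⟩
    exact exists_t_up hD hC hm hs ht

end Pool.Agent.Results.MP_6d0ce9_ag.PrimeFields
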